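import Pool.Agent.MP_670f9a_nt.H13.Spec

/-!
Generalized Hankel determinants of a carried functional, and vanishing minors.
-/

namespace Pool.Agent.MP_670f9a_nt.H32

open Polynomial Pool.Agent.MP_670f9a_nt.H13 Finset

lemma sum_mono {ι : Type} (c : ℕ → ℂ) (s : Finset ι) (n : ι → ℕ) (a : ι → ℂ) :
    (∑ j ∈ s, monomial (n j) (a j) : ℂ[X]).sum (fun k b => b * c k) = ∑ j ∈ s, a j * c (n j) := by
  classical
  induction s using Finset.induction_on with
  | empty => simp
  | insert j s hj ih =>
    rw [sum_insert hj, sum_insert hj, Polynomial.sum_add_index _ _ _ (fun _ => zero_mul _)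
      (fun _ _ _ => add_mul _ _ _), ih,
      Polynomial.sum_monomial_index (a j) (fun k b => b * c k) (zero_mul _)]

lemma det_row {N : ℕ} (A : Matrix (Fin N) (Fin N) ℂ) (k : Fin N) :
    ∃ a : Fin N → ℂ, ∀ v : Fin N → ℂ, (A.updateRow k v).det = ∑ j, a j * v j := by
  let L : (Fin N → ℂ) →ₗ[ℂ] ℂ := (LinearMap.proj k).comp (Matrix.cramer A.transpose)
  refine ⟨fun j => L fun i => if j = i then 1 else 0, fun v => ?_⟩
  have h : L v = (A.updateRow k v).det := Matrix.cramer_transpose_apply A v k
  rw [← h, LinearMap.pi_apply_eq_sum_univ]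
  exact sum_congr rfl fun j _ => by rw [smul_eq_mul, mul_comm]

theorem sdet : SDet := by
  intro c T D N M₀ B e hc he hT hV
  have main : ∀ s : Finset (Fin N), ∀ z : Fin N → ℂ, (∀ i, i ∉ s → z i ∈ T) →
      ‖(Matrix.of fun i j : Fin N => if i ∈ s then c (e i + j) else z i ^ (e i + j)).det‖ ≤
        M₀ ^ s.card * B := by
    intro s
    induction s using Finset.induction_on with
    | empty =>
      intro z hz
      have hz' : ∀ i, z i ∈ T := fun i => hz i (notMem_empty i)
      have h : (Matrix.of fun i j : Fin N =>
          if i ∈ (∅ : Finset (Fin N)) then c (e i + j) else z i ^ (e i + j)) =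
          Matrix.of fun i j : Fin N => z i ^ e i * Matrix.vandermonde z i j := by
        ext i j
        simp [pow_add]
      rw [h, Matrix.det_mul_column, norm_mul, card_empty, pow_zero, norm_prod]
      refine mul_le_mul ?_ (hV z hz') (norm_nonneg _) zero_le_one
      refine prod_le_one (fun _ _ => norm_nonneg _) fun i _ => ?_
      rw [norm_pow]
      exact pow_le_one₀ (norm_nonneg _) (hT _ (hz' i))
    | insert k s hk ih =>
      intro z hz
      obtain ⟨a, ha⟩ := det_row
        (Matrix.of fun i j : Fin N => if i ∈ s then c (e i + j) else z i ^ (e i + j)) k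
      have h1 : (Matrix.of fun i j : Fin N =>
          if i ∈ insert k s then c (e i + j) else z i ^ (e i + j)) =
          (Matrix.of fun i j : Fin N => if i ∈ s then c (e i + j) else z i ^ (e i + j)).updateRow k
            fun j => c (e k + j) := by
        ext i j
        by_cases h : i = k
        · subst h
          simp
        · simp [h]
      have h2 : ∀ w : ℂ, (Matrix.of fun i j : Fin N =>
          if i ∈ s then c (e i + j) else Function.update z k w i ^ (e i + j)) =
          (Matrix.of fun i j : Fin N => if i ∈ s then c (e i + j) else z i ^ (e i + j)).updateRow k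
            fun j => w ^ (e k + j) := by
        intro w
        ext i j
        by_cases h : i = k
        · subst h
          simp [hk]
        · simp [h]
      rw [h1, ha, ← sum_mono c univ (fun j : Fin N => e k + j) a, card_insert_of_notMem hk,
        pow_succ', mul_assoc]
      apply hc
      · refine natDegree_sum_le_of_forall_le _ _ fun j _ => (natDegree_monomial_le _).trans ?_
        have := he k
        have := j.2
        omega
      · intro w hw
        have h3 := ih (Function.update z k w) (by
          intro i hi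
          by_cases h : i = k
          · subst h
            rwa [Function.update_self]
          · rw [Function.update_of_ne h]
            exact hz i (by simp [h, hi]))
        rw [h2, ha] at h3
        rw [eval_finsetSum]
        simpa only [eval_monomial] using h3
  have := main univ (fun _ => 0) fun i hi => absurd (mem_univ i) hi
  simpa using this

lemma ker_vec {N : ℕ} {ι : Type} (r : ι → Fin N → ℂ)
    (h : ∀ e : Fin N → ι, (Matrix.of fun i j : Fin N => r (e i) j).det = 0) :
    ∃ v : Fin N → ℂ, v ≠ 0 ∧ ∀ e, ∑ j, v j * r e j = 0 := by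
  have hlt : Submodule.span ℂ (Set.range r) < ⊤ := by
    rw [lt_top_iff_ne_top]
    intro ht
    have h0 : (Matrix.detRowAlternating : (Fin N → ℂ) [⋀^Fin N]→ₗ[ℂ] ℂ).toMultilinearMap = 0 :=
      MultilinearMap.ext_of_span_eq_top (g := fun _ => r) (fun _ => ht) fun e => h e
    have h1 : (1 : Matrix (Fin N) (Fin N) ℂ).det = 0 := DFunLike.congr_fun h0 _
    rw [Matrix.det_one] at h1
    exact one_ne_zero h1
  obtain ⟨f, hf, hle⟩ := Submodule.exists_le_ker_of_lt_top _ hlt
  refine ⟨fun j => f fun i => if j = i then 1 else 0, fun hv => hf ?_, fun e => ?_⟩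
  · refine LinearMap.ext fun x => ?_
    rw [LinearMap.pi_apply_eq_sum_univ, LinearMap.zero_apply]
    refine sum_eq_zero fun j _ => ?_
    have : f (fun i => if j = i then 1 else 0) = 0 := congrFun hv j
    rw [this, smul_zero]
  · have : f (r e) = 0 := hle (Submodule.subset_span ⟨e, rfl⟩)
    rw [LinearMap.pi_apply_eq_sum_univ] at this
    exact (sum_congr rfl fun j _ => by rw [smul_eq_mul, mul_comm]).trans this

theorem sker : SKer := by
  intro Φ P s N hN hP hd h
  obtain ⟨v, hv, hr⟩ := ker_vec (ι := {e : ℕ // s + 1 ≤ e ∧ e + N ≤ 2 * (s + N)})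
    (fun e (j : Fin N) => Φ.coeff (e.1 + j)) fun e => h (fun i => (e i).1) fun i => (e i).2
  set B : ℂ[X] := ∑ j : Fin N, monomial (N - 1 - j) (v j) with hB
  set A : ℂ[X] := ∑ n ∈ range (s + N), monomial n ((B * Φ).coeff n) with hA
  have hBd : B.natDegree ≤ N - 1 :=
    natDegree_sum_le_of_forall_le _ _ fun j _ => (natDegree_monomial_le _).trans (by omega)
  have hAd : A.natDegree ≤ s + N - 1 :=
    natDegree_sum_le_of_forall_le _ _ fun j hj => (natDegree_monomial_le _).trans (by
      have := mem_range.1 hj
      omega)
  have hB0 : B ≠ 0 := by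
    intro h0
    apply hv
    funext j
    have : B.coeff (N - 1 - j) = v j := by
      rw [hB, finsetSum_coeff, sum_eq_single j]
      · rw [coeff_monomial_same]
      · intro i _ hij
        apply coeff_monomial_of_ne
        intro g
        apply hij
        have := i.2
        have := j.2
        apply Fin.ext
        omega
      · intro g
        exact absurd (mem_univ j) g
    rw [← this, h0, coeff_zero]
    rfl
  have hdv : X ^ (2 * (s + N)) ∣ B * Φ - A := by
    rw [X_pow_dvd_iff]
    intro n hn
    rw [coeff_sub, hA, finsetSum_coeff]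
    simp only [coeff_monomial, sum_ite_eq', mem_range]
    split_ifs with g
    · exact sub_self _
    · rw [sub_zero, ← hr ⟨n + 1 - N, by omega, by omega⟩, hB, sum_mul, finsetSum_coeff]
      refine sum_congr rfl fun j _ => ?_
      rw [← coeff_monomial_mul Φ (N - 1 - j)]
      have := j.2
      have e1 : n + 1 - N + j + (N - 1 - j) = n := by omega
      rw [e1]
  refine ⟨B, A, hB0, sub_eq_zero.1 ?_⟩
  apply eq_zero_of_dvd_of_natDegree_lt (p := X ^ (2 * (s + N)))
  · have e : B ^ 2 * P - A ^ 2 = (B * Φ - A) * (B * Φ + A) - B ^ 2 * (Φ ^ 2 - P) := by ring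
    rw [e]
    exact dvd_sub (hdv.mul_right _) (hd.mul_left _)
  · rw [natDegree_X_pow]
    have h1 : (B ^ 2 * P).natDegree ≤ 2 * (N - 1) + s :=
      natDegree_mul_le.trans (add_le_add (natDegree_pow_le.trans (by omega)) hP)
    have h2 : (A ^ 2).natDegree ≤ 2 * (s + N - 1) := natDegree_pow_le.trans (by omega)
    have := natDegree_sub_le (B ^ 2 * P) (A ^ 2)
    omega

end Pool.Agent.MP_670f9a_nt.H32
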